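import Pool.Agent.Q130.TC.Stm2
import Pool.Agent.Y433.RO.PCB

/-!
# Project TC, job PLY: a finite net of a polygon (helper88)
-/

set_option autoImplicit false

namespace Pool.Agent.Q88.TC

open MeasureTheory Set Metric Filter Topology
open Pool.Agent.Q130.TC
open Pool.Agent.Y271.RO (pk cost pw fd Cheap)

/-- `‖y - w‖² + ε²` -/
noncomputable def uu (ε : ℝ) (w y : ℂ) : ℝ := ‖y - w‖ ^ 2 + ε ^ 2

theorem uu_pos {ε : ℝ} (hε : 0 < ε) (w y : ℂ) : 0 < uu ε w y := by
  unfold uu
  positivity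

/-- the potential -/
noncomputable def FF (ε : ℝ) (w y : ℂ) : ℝ := -(ε ^ 2 / (3 * Real.pi)) * (√(uu ε w y) ^ 3)⁻¹

theorem hasDerivAt_uu (ε : ℝ) (w p d : ℂ) (t : ℝ) :
    HasDerivAt (fun t : ℝ => uu ε w (p + t * d))
      (2 * ((p + t * d - w).re * d.re + (p + t * d - w).im * d.im)) t := by
  have h1 : (fun t : ℝ => uu ε w (p + t * d)) = fun t : ℝ =>
      ((p - w).re + t * d.re) ^ 2 + ((p - w).im + t * d.im) ^ 2 + ε ^ 2 := by
    funext t
    unfold uu
    rw [← Complex.normSq_eq_norm_sq, Complex.normSq_apply]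
    simp only [Complex.sub_re, Complex.add_re, Complex.mul_re, Complex.ofReal_re,
      Complex.ofReal_im, Complex.sub_im, Complex.add_im, Complex.mul_im]
    ring
  rw [h1]
  have h2 : HasDerivAt (fun t : ℝ => (p - w).re + t * d.re) (d.re) t := by
    simpa using ((hasDerivAt_id t).mul_const d.re).const_add (p - w).re
  have h3 : HasDerivAt (fun t : ℝ => (p - w).im + t * d.im) (d.im) t := by
    simpa using ((hasDerivAt_id t).mul_const d.im).const_add (p - w).im
  have h4 := ((h2.pow 2).add (h3.pow 2)).add_const (ε ^ 2)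
  refine h4.congr_deriv ?_
  simp only [Complex.sub_re, Complex.add_re, Complex.mul_re, Complex.ofReal_re,
      Complex.ofReal_im, Complex.sub_im, Complex.add_im, Complex.mul_im]
  push_cast
  ring

theorem inner_le (x d : ℂ) : x.re * d.re + x.im * d.im ≤ ‖x‖ * ‖d‖ := by
  have h1 : x.re * d.re + x.im * d.im = (x * (starRingEnd ℂ) d).re := by
    simp [Complex.mul_re]
  rw [h1]
  refine (Complex.re_le_norm _).trans ?_
  rw [norm_mul, Complex.norm_conj]

theorem deriv_FF {ε : ℝ} (hε : 0 < ε) (w p d : ℂ) (t : ℝ) :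
    ∃ D : ℝ, HasDerivAt (fun t : ℝ => FF ε w (p + t * d)) D t ∧
      D ≤ ‖d‖ * pk ε (p + t * d - w) := by
  have hu := uu_pos hε w (p + t * d)
  have hs : 0 < √(uu ε w (p + t * d)) := Real.sqrt_pos.2 hu
  have h1 := (hasDerivAt_uu ε w p d t).sqrt hu.ne'
  have h2 : HasDerivAt (fun t : ℝ => FF ε w (p + t * d)) _ t :=
    ((h1.fun_pow 3).fun_inv (pow_pos hs 3).ne').const_mul (-(ε ^ 2 / (3 * Real.pi)))
  refine ⟨_, h2, ?_⟩
  set s := √(uu ε w (p + t * d)) with hsdef
  set I := (p + t * d - w).re * d.re + (p + t * d - w).im * d.im with hI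
  have hI1 : I ≤ ‖p + t * d - w‖ * ‖d‖ := inner_le _ _
  have hs2 : s ^ 2 = ‖p + t * d - w‖ ^ 2 + ε ^ 2 := Real.sq_sqrt hu.le
  have hs3 : ‖p + t * d - w‖ ≤ s := by
    refine le_of_pow_le_pow_left₀ (n := 2) (by norm_num) hs.le ?_
    rw [hs2]
    nlinarith [sq_nonneg ε]
  have hpk : pk ε (p + t * d - w) = ε ^ 2 / (Real.pi * s ^ 4) := by
    unfold pk
    rw [← hs2]
    congr 2
    ring
  rw [hpk]
  have hI2 : I ≤ s * ‖d‖ := hI1.trans (mul_le_mul_of_nonneg_right hs3 (norm_nonneg _))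
  have hpi := Real.pi_pos
  have e1 : -(ε ^ 2 / (3 * Real.pi)) * (-(((3 : ℕ) : ℝ) * s ^ (3 - 1) * (2 * I / (2 * s))) /
      (s ^ 3) ^ 2) = (ε ^ 2 / Real.pi) * (I / s ^ 5) := by
    push_cast
    field_simp
  rw [e1]
  have e2 : I / s ^ 5 ≤ ‖d‖ / s ^ 4 := by
    rw [div_le_div_iff₀ (by positivity) (by positivity)]
    calc I * s ^ 4 ≤ (s * ‖d‖) * s ^ 4 := mul_le_mul_of_nonneg_right hI2 (by positivity)
      _ = ‖d‖ * s ^ 5 := by ring
  calc ε ^ 2 / Real.pi * (I / s ^ 5) ≤ ε ^ 2 / Real.pi * (‖d‖ / s ^ 4) :=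
        mul_le_mul_of_nonneg_left e2 (by positivity)
    _ = ‖d‖ * (ε ^ 2 / (Real.pi * s ^ 4)) := by
        field_simp

/-- one segment -/
theorem FF_seg {ε : ℝ} (hε : 0 < ε) (w p q : ℂ) (s : ℝ) (h0 : 0 ≤ s) (h1 : s ≤ 1) :
    FF ε w q - FF ε w (p + s * (q - p)) ≤
      ‖q - p‖ * ∫ t in (0:ℝ)..1, pk ε (p + t * (q - p) - w) := by
  have hcont : Continuous fun t : ℝ => ‖q - p‖ * pk ε (p + t * (q - p) - w) :=
    continuous_const.mul ((Pool.Agent.Y433.RO.pk_cont hε).comp (by fun_prop))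
  have hder := fun t : ℝ => deriv_FF hε w p (q - p) t
  choose D hD1 hD2 using hder
  have key := intervalIntegral.sub_le_integral_of_hasDeriv_right_of_le (a := s) (b := 1) h1
    (fun t _ => (hD1 t).continuousAt.continuousWithinAt)
    (fun t _ => (hD1 t).hasDerivWithinAt) hcont.continuousOn.integrableOn_Icc (fun t _ => hD2 t)
  have e1 : p + ((1:ℝ) : ℂ) * (q - p) = q := by push_cast; ring
  rw [e1] at key
  refine key.trans ?_
  rw [intervalIntegral.integral_const_mul]
  refine mul_le_mul_of_nonneg_left ?_ (norm_nonneg _)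
  have hc2 : Continuous fun t : ℝ => pk ε (p + t * (q - p) - w) :=
    (Pool.Agent.Y433.RO.pk_cont hε).comp (by fun_prop)
  refine intervalIntegral.integral_mono_interval h0 h1 le_rfl
    (Eventually.of_forall fun t => Pool.Agent.Y433.RO.pk_nonneg ε _) (hc2.intervalIntegrable _ _)

/-- one point of the polygon and the end point -/
theorem FF_pol {ε : ℝ} (hε : 0 < ε) (w : ℂ) (z : ℕ → ℂ) (m j : ℕ) (hj : j < m) (s : ℝ)
    (h0 : 0 ≤ s) (h1 : s ≤ 1) :
    FF ε w (z m) - FF ε w (z j + s * (z (j + 1) - z j)) ≤ cost (fun y => pk ε (y - w)) z m := by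
  unfold cost
  have hnn : ∀ i, 0 ≤ ‖z (i + 1) - z i‖ * ∫ t in (0:ℝ)..1,
      pk ε (z i + t * (z (i + 1) - z i) - w) := fun i =>
    mul_nonneg (norm_nonneg _) (intervalIntegral.integral_nonneg (by norm_num)
      fun t _ => Pool.Agent.Y433.RO.pk_nonneg ε _)
  have h2 : ∀ n, j < n → FF ε w (z n) - FF ε w (z j + s * (z (j + 1) - z j)) ≤
      ∑ i ∈ Finset.range n, ‖z (i + 1) - z i‖ * ∫ t in (0:ℝ)..1,
        pk ε (z i + t * (z (i + 1) - z i) - w) := by
    intro n hn
    induction n with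
    | zero => omega
    | succ n ih =>
      rw [Finset.sum_range_succ]
      rcases Nat.lt_succ_iff_lt_or_eq.1 hn with h | h
      · have h3 := ih h
        have h4 := FF_seg hε w (z n) (z (n + 1)) 0 le_rfl zero_le_one
        have e : z n + ((0:ℝ) : ℂ) * (z (n + 1) - z n) = z n := by push_cast; ring
        rw [e] at h4
        linarith
      · subst h
        have h4 := FF_seg hε w (z j) (z (j + 1)) s h0 h1
        have h5 := Finset.sum_nonneg fun i (_ : i ∈ Finset.range j) => hnn i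
        linarith
  exact h2 m hj

/-- far away from `w` the potential is larger than near `w` -/
theorem FF_gap {ε : ℝ} (hε : 0 < ε) (w y y' : ℂ) (h1 : ‖y - w‖ ≤ 2 * ε)
    (h2 : 40 * ε ≤ ‖y' - w‖) : 1 / (1000 * ε) ≤ FF ε w y' - FF ε w y := by
  have hpi := Real.pi_pos
  have hpi4 := Real.pi_le_four
  have a1 : √(uu ε w y) ≤ 3 * ε := by
    rw [Real.sqrt_le_left (by positivity)]
    unfold uu
    have : ‖y - w‖ ^ 2 ≤ (2 * ε) ^ 2 := pow_le_pow_left₀ (norm_nonneg _) h1 2
    nlinarith [sq_nonneg ε]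
  have a2 : 40 * ε ≤ √(uu ε w y') := by
    refine Real.le_sqrt_of_sq_le ?_
    unfold uu
    have : (40 * ε) ^ 2 ≤ ‖y' - w‖ ^ 2 := pow_le_pow_left₀ (by positivity) h2 2
    nlinarith [sq_nonneg ε]
  have hs : 0 < √(uu ε w y) := Real.sqrt_pos.2 (uu_pos hε w y)
  have hs' : 0 < √(uu ε w y') := Real.sqrt_pos.2 (uu_pos hε w y')
  have b1 : (27 * ε ^ 3)⁻¹ ≤ (√(uu ε w y) ^ 3)⁻¹ := by
    refine inv_anti₀ (pow_pos hs 3) ?_
    calc √(uu ε w y) ^ 3 ≤ (3 * ε) ^ 3 := pow_le_pow_left₀ hs.le a1 3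
      _ = 27 * ε ^ 3 := by ring
  have b2 : (√(uu ε w y') ^ 3)⁻¹ ≤ (64000 * ε ^ 3)⁻¹ := by
    refine inv_anti₀ (by positivity) ?_
    calc 64000 * ε ^ 3 = (40 * ε) ^ 3 := by ring
      _ ≤ √(uu ε w y') ^ 3 := pow_le_pow_left₀ (by positivity) a2 3
  have b3 : FF ε w y' - FF ε w y = ε ^ 2 / (3 * Real.pi) * ((√(uu ε w y) ^ 3)⁻¹ -
      (√(uu ε w y') ^ 3)⁻¹) := by
    unfold FF
    ring
  rw [b3]
  have b4 : (30 * ε ^ 3)⁻¹ ≤ (√(uu ε w y) ^ 3)⁻¹ - (√(uu ε w y') ^ 3)⁻¹ := by
    have e1 : (30 * ε ^ 3)⁻¹ = 1 / 30 * (ε ^ 3)⁻¹ := by rw [mul_inv]; ring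
    have e2 : (27 * ε ^ 3)⁻¹ = 1 / 27 * (ε ^ 3)⁻¹ := by rw [mul_inv]; ring
    have e3 : (64000 * ε ^ 3)⁻¹ = 1 / 64000 * (ε ^ 3)⁻¹ := by rw [mul_inv]; ring
    rw [e2] at b1
    rw [e3] at b2
    rw [e1]
    have h3 : 0 < (ε ^ 3)⁻¹ := by positivity
    linarith
  have b5 : ε ^ 2 / (3 * Real.pi) * (30 * ε ^ 3)⁻¹ ≤ ε ^ 2 / (3 * Real.pi) *
      ((√(uu ε w y) ^ 3)⁻¹ - (√(uu ε w y') ^ 3)⁻¹) :=
    mul_le_mul_of_nonneg_left b4 (by positivity)
  refine le_trans ?_ b5
  have e4 : ε ^ 2 / (3 * Real.pi) * (30 * ε ^ 3)⁻¹ = 1 / (90 * Real.pi * ε) := by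
    field_simp
    norm_num
  rw [e4]
  refine one_div_le_one_div_of_le (by positivity) ?_
  nlinarith

/-- the subdivided polygon -/
noncomputable def sub (z : ℕ → ℂ) (N n : ℕ) : ℂ :=
  z (n / N) + (((n % N : ℕ) : ℝ) / N : ℝ) * (z (n / N + 1) - z (n / N))

theorem sub_step (z : ℕ → ℂ) {N : ℕ} (hN : 0 < N) (n : ℕ) :
    ‖sub z N (n + 1) - sub z N n‖ = ‖z (n / N + 1) - z (n / N)‖ / N := by
  have hN' : (N : ℝ) ≠ 0 := by positivity
  have hNc : (N : ℂ) ≠ 0 := by exact_mod_cast hN.ne'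
  have key : sub z N (n + 1) - sub z N n = (z (n / N + 1) - z (n / N)) / N := by
    unfold sub
    by_cases h : n % N + 1 = N
    · have h1 : (n + 1) / N = n / N + 1 := by
        rw [Nat.div_eq_iff hN]
        have := Nat.div_add_mod n N
        constructor
        · nlinarith
        · have h3 : (n / N + 1) * N = N * (n / N) + N := by ring
          omega
      have h2 : (n + 1) % N = 0 := by
        have := Nat.div_add_mod n N
        have h3 : n + 1 = N * (n / N + 1) := by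
          rw [mul_add, mul_one]
          omega
        rw [h3]
        exact Nat.mul_mod_right _ _
      have h3 : ((n % N : ℕ) : ℂ) = N - 1 := by
        have : ((n % N + 1 : ℕ) : ℂ) = N := by rw [h]
        push_cast at this ⊢
        rw [← this]
        ring
      rw [h1, h2]
      push_cast
      rw [h3]
      field_simp
      ring
    · have hlt : n % N + 1 < N := lt_of_le_of_ne (Nat.mod_lt n hN) h
      have h1 : (n + 1) / N = n / N := by
        rw [Nat.div_eq_iff hN]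
        have := Nat.div_add_mod n N
        have h3 : n / N * N = N * (n / N) := by ring
        constructor <;> omega
      have h2 : (n + 1) % N = n % N + 1 := by
        have h3 := Nat.div_add_mod n N
        have h4 := Nat.div_add_mod (n + 1) N
        rw [h1] at h4
        omega
      rw [h1, h2]
      push_cast
      field_simp
      ring
  rw [key, norm_div, Complex.norm_natCast]

theorem ply : S_PLY := by
  refine ⟨1000, by norm_num, fun z m a r ε hr hε hεr h0 hm => ?_⟩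
  classical
  -- the number of pieces
  obtain ⟨M, hM⟩ : ∃ M : ℝ, ∀ i < m, ‖z (i + 1) - z i‖ ≤ M :=
    ⟨∑ i ∈ Finset.range m, ‖z (i + 1) - z i‖, fun i hi =>
      Finset.single_le_sum (f := fun i => ‖z (i + 1) - z i‖) (fun _ _ => norm_nonneg _)
        (Finset.mem_range.2 hi)⟩
  obtain ⟨N, hN⟩ := exists_nat_gt (M / ε)
  have hm0 : 0 < m := by
    rcases Nat.eq_zero_or_pos m with h | h
    · subst h
      exfalso
      have : r ≤ r / 100 := hm.trans h0
      linarith
    · exact h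
  have hM0 : 0 ≤ M := (norm_nonneg _).trans (hM 0 hm0)
  have hN0 : 0 < N := by
    have : (0:ℝ) < N := lt_of_le_of_lt (by positivity) hN
    exact_mod_cast this
  have hN0' : (0:ℝ) < N := by exact_mod_cast hN0
  set y := sub z N with hy
  have hstep : ∀ n < m * N, ‖y (n + 1) - y n‖ ≤ ε := by
    intro n hn
    rw [hy, sub_step z hN0]
    have h1 : n / N < m := Nat.div_lt_of_lt_mul (by rwa [mul_comm])
    rw [div_le_iff₀ hN0']
    have h2 : M < ε * N := by
      rw [div_lt_iff₀ hε] at hN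
      linarith
    exact (hM _ h1).trans h2.le
  have hyz : y 0 = z 0 := by simp [hy, sub]
  have hym : y (m * N) = z m := by
    simp [hy, sub, Nat.mul_div_cancel _ hN0]
  -- first exit
  have hex : ∃ n, r / 2 < ‖y n - a‖ := ⟨m * N, by rw [hym]; linarith⟩
  set n₀ := Nat.find hex with hn₀
  have hn1 : r / 2 < ‖y n₀ - a‖ := Nat.find_spec hex
  have hn2 : ∀ n < n₀, ‖y n - a‖ ≤ r / 2 := fun n hn => not_lt.1 (Nat.find_min hex hn)
  have hn3 : n₀ ≤ m * N := Nat.find_min' hex (by rw [hym]; linarith)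
  have hn4 : 0 < n₀ := by
    rcases Nat.eq_zero_or_pos n₀ with h | h
    · rw [h, hyz] at hn1
      linarith
    · exact h
  refine ⟨(Finset.range n₀).image y, ?_, ?_, ?_, ?_⟩
  · -- chains
    have up : ∀ i j, i ≤ j → j < n₀ → ∃ (n : ℕ) (x : ℕ → ℂ), x 0 = y i ∧ x n = y j ∧
        (∀ k ≤ n, x k ∈ (Finset.range n₀).image y) ∧ ∀ k < n, ‖x (k + 1) - x k‖ ≤ ε := by
      intro i j hij hj
      refine ⟨j - i, fun k => y (i + k), by simp, by simp [Nat.add_sub_cancel' hij], ?_, ?_⟩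
      · intro k hk
        exact Finset.mem_image_of_mem _ (Finset.mem_range.2 (by omega))
      · intro k hk
        exact hstep (i + k) (by omega)
    intro b hb b' hb'
    obtain ⟨i, hi, rfl⟩ := Finset.mem_image.1 hb
    obtain ⟨j, hj, rfl⟩ := Finset.mem_image.1 hb'
    rw [Finset.mem_range] at hi hj
    rcases le_total i j with hij | hij
    · exact up i j hij hj
    · obtain ⟨n, x, h1, h2, h3, h4⟩ := up j i hij hi
      refine ⟨n, fun k => x (n - k), by simpa using h2, by simpa using h1, ?_, ?_⟩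
      · intro k hk
        exact h3 _ (by omega)
      · intro k hk
        have h5 := h4 (n - (k + 1)) (by omega)
        have e : n - (k + 1) + 1 = n - k := by omega
        rw [e, norm_sub_rev] at h5
        exact h5
  · intro b hb
    obtain ⟨i, hi, rfl⟩ := Finset.mem_image.1 hb
    exact hn2 i (Finset.mem_range.1 hi)
  · refine ⟨y 0, Finset.mem_image_of_mem _ (Finset.mem_range.2 hn4), y (n₀ - 1),
      Finset.mem_image_of_mem _ (Finset.mem_range.2 (by omega)), ?_⟩
    have h1 := hstep (n₀ - 1) (by omega)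
    rw [Nat.sub_add_cancel hn4] at h1
    have h2 : ‖y n₀ - a‖ ≤ ‖y n₀ - y (n₀ - 1)‖ + ‖y 0 - y (n₀ - 1)‖ + ‖y 0 - a‖ := by
      have e : y n₀ - a = (y n₀ - y (n₀ - 1)) - (y 0 - y (n₀ - 1)) + (y 0 - a) := by ring
      rw [e]
      exact (norm_add_le _ _).trans (add_le_add_left (norm_sub_le _ _) _)
    rw [hyz] at h2 ⊢
    linarith
  · intro w
    have hc0 : 0 ≤ cost (fun y => pk ε (y - w)) z m := by
      unfold cost
      exact Finset.sum_nonneg fun i _ => mul_nonneg (norm_nonneg _)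
        (intervalIntegral.integral_nonneg (by norm_num)
          fun t _ => Pool.Agent.Y433.RO.pk_nonneg ε _)
    by_cases hw : 2 * ε ≤ infDist w ((((Finset.range n₀).image y : Finset ℂ)) : Set ℂ)
    · have h1 : om ((Finset.range n₀).image y) ε w = 0 := by
        unfold om
        have h2 : 2 - infDist w ((((Finset.range n₀).image y : Finset ℂ)) : Set ℂ) / ε ≤ 0 := by
          rw [sub_nonpos, le_div_iff₀ hε]
          exact hw
        rw [max_eq_left ((min_le_right _ _).trans h2), mul_zero]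
      rw [h1]
      positivity
    · push Not at hw
      have hne : ((((Finset.range n₀).image y : Finset ℂ)) : Set ℂ).Nonempty :=
        ⟨y 0, Finset.mem_coe.2 (Finset.mem_image_of_mem _ (Finset.mem_range.2 hn4))⟩
      obtain ⟨b, hb, hbw⟩ := (infDist_lt_iff hne).1 hw
      obtain ⟨i, hi, rfl⟩ := Finset.mem_image.1 (Finset.mem_coe.1 hb)
      rw [Finset.mem_range] at hi
      have h1 : om ((Finset.range n₀).image y) ε w ≤ ε⁻¹ := by
        unfold om
        have h2 : max 0 (min 1 (2 - infDist w ((((Finset.range n₀).image y : Finset ℂ)) : Set ℂ)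
            / ε)) ≤ 1 := max_le zero_le_one (min_le_left _ _)
        calc _ ≤ ε⁻¹ * 1 := mul_le_mul_of_nonneg_left h2 (by positivity)
          _ = _ := mul_one _
      refine h1.trans ?_
      have hj : i / N < m := Nat.div_lt_of_lt_mul (by rw [mul_comm]; omega)
      have h3 := FF_pol hε w z m (i / N) hj (((i % N : ℕ) : ℝ) / N) (by positivity) (by
        rw [div_le_one hN0']
        exact_mod_cast (Nat.mod_lt i hN0).le)
      have h4 := FF_gap hε w (y i) (z m) (by
        rw [dist_comm, dist_eq_norm] at hbw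
        exact hbw.le) (by
        have h5 := hn2 i hi
        rw [dist_comm, dist_eq_norm] at hbw
        have h6 : ‖z m - a‖ ≤ ‖z m - w‖ + ‖y i - w‖ + ‖y i - a‖ := by
          have e : z m - a = (z m - w) - (y i - w) + (y i - a) := by ring
          rw [e]
          exact (norm_add_le _ _).trans (add_le_add_left (norm_sub_le _ _) _)
        linarith)
      have h5 : 1 / (1000 * ε) ≤ cost (fun y => pk ε (y - w)) z m := h4.trans h3
      have e : ε⁻¹ = 1000 * (1 / (1000 * ε)) := by field_simp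
      rw [e]
      exact mul_le_mul_of_nonneg_left h5 (by norm_num)

end Pool.Agent.Q88.TC
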